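import Pool.Agent.Y766.R11.Stm
import Pool.Agent.Y766.R3.TD

/-!
Project R11 (helper766), job MSR: the mollified mean square at `s` over a coset, short ranges
(adapted from Y756/R10/Msq.lean of helper756).
-/

set_option autoImplicit false

namespace Pool.Agent.Y764.R11

open Finset
open Pool.Agent.Y766.R3 (FF orth cong_sum)
open Pool.Agent.Y766.R10 (WG mw S_DIAG)
open Pool.Agent.Y766.R11

/-- the coefficients of the mollifier -/
noncomputable def mw2 (q κ : ℝ) (l : ℕ) : ℝ := 2 * mw q κ l - mw q (κ / 2) l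

/-- the coefficients of the product -/
noncomputable def bb (q κ : ℝ) (G : ℝ → ℂ) (k : ℕ) : ℂ :=
  ∑ l ∈ k.divisors, (mw2 q κ l : ℂ) * G ((Real.log k - Real.log l) / Real.log q)

/-- the same with `mw` -/
noncomputable def b1 (q κ : ℝ) (G : ℝ → ℂ) (k : ℕ) : ℂ :=
  ∑ l ∈ k.divisors, (mw q κ l : ℂ) * G ((Real.log k - Real.log l) / Real.log q)

lemma bb_sub (q κ : ℝ) (G : ℝ → ℂ) (k : ℕ) :
    bb q κ G k = 2 * b1 q κ G k - b1 q (κ / 2) G k := by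
  unfold bb b1 mw2
  rw [mul_sum, ← sum_sub_distrib]
  refine sum_congr rfl fun l _ => ?_
  push_cast
  ring

lemma norm_bb_sq (q κ : ℝ) (G : ℝ → ℂ) (k : ℕ) :
    ‖bb q κ G k‖ ^ 2 ≤ 8 * ‖b1 q κ G k‖ ^ 2 + 2 * ‖b1 q (κ / 2) G k‖ ^ 2 := by
  rw [bb_sub]
  have h1 : ‖2 * b1 q κ G k - b1 q (κ / 2) G k‖ ≤ 2 * ‖b1 q κ G k‖ + ‖b1 q (κ / 2) G k‖ := by
    refine (norm_sub_le _ _).trans ?_
    rw [norm_mul]
    norm_num
  have h2 := norm_nonneg (2 * b1 q κ G k - b1 q (κ / 2) G k)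
  calc ‖2 * b1 q κ G k - b1 q (κ / 2) G k‖ ^ 2 ≤
      (2 * ‖b1 q κ G k‖ + ‖b1 q (κ / 2) G k‖) ^ 2 := pow_le_pow_left₀ h2 h1 2
    _ ≤ _ := by nlinarith [sq_nonneg (2 * ‖b1 q κ G k‖ - ‖b1 q (κ / 2) G k‖)]

lemma mw_zero {q κ : ℝ} {l : ℕ} (h : ⌊q ^ κ⌋₊ < l) : mw q κ l = 0 := by
  unfold mw
  rw [if_neg]
  exact not_le.2 (Nat.lt_of_floor_lt h)

lemma floor_half {q κ : ℝ} (hq : 1 < q) (hκ : 0 < κ) : ⌊q ^ (κ / 2)⌋₊ ≤ ⌊q ^ κ⌋₊ :=
  Nat.floor_le_floor (Real.rpow_le_rpow_of_exponent_le hq.le (by linarith))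

lemma mw2_zero {q κ : ℝ} (hq : 1 < q) (hκ : 0 < κ) {l : ℕ} (h : ⌊q ^ κ⌋₊ < l) :
    mw2 q κ l = 0 := by
  unfold mw2
  rw [mw_zero h, mw_zero (lt_of_le_of_lt (floor_half hq hκ) h)]
  ring

lemma MP_eq {q : ℕ} (hq : 1 < (q : ℝ)) (ψ : DirichletCharacter ℂ q) {κ : ℝ} (hκ : 0 < κ) (s : ℂ) :
    MP ψ κ s = ∑ l ∈ Icc 1 ⌊(q : ℝ) ^ κ⌋₊, (mw2 q κ l : ℂ) *
      (ψ (l : ZMod q) * (l : ℂ) ^ (-s)) := by
  unfold MP MS
  have e : ∑ l ∈ Icc 1 ⌊(q : ℝ) ^ (κ / 2)⌋₊, (mw q (κ / 2) l : ℂ) *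
      (ψ (l : ZMod q) * (l : ℂ) ^ (-s)) = ∑ l ∈ Icc 1 ⌊(q : ℝ) ^ κ⌋₊, (mw q (κ / 2) l : ℂ) *
      (ψ (l : ZMod q) * (l : ℂ) ^ (-s)) := by
    apply sum_subset (Icc_subset_Icc_right (floor_half hq hκ))
    intro l hl hl'
    rw [mem_Icc] at hl hl'
    rw [mw_zero (by omega)]
    simp
  rw [e, mul_sum, ← sum_sub_distrib]
  refine sum_congr rfl fun l _ => ?_
  unfold mw2
  push_cast
  ring

lemma bb_eq {q κ : ℝ} (hq : 1 < q) (hκ : 0 < κ) (G : ℝ → ℂ) {k : ℕ} (hk : 1 ≤ k) :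
    bb q κ G k = ∑ l ∈ Icc 1 ⌊q ^ κ⌋₊, if l ∣ k then
      (mw2 q κ l : ℂ) * G ((Real.log k - Real.log l) / Real.log q) else 0 := by
  classical
  unfold bb
  rw [← sum_filter]
  symm
  apply sum_subset
  · intro l hl
    rw [mem_filter, mem_Icc] at hl
    rw [Nat.mem_divisors]
    exact ⟨hl.2, by omega⟩
  · intro l hl hl'
    rw [Nat.mem_divisors] at hl
    have h1 : 1 ≤ l := Nat.pos_of_dvd_of_pos hl.1 hk
    have h2 : ⌊q ^ κ⌋₊ < l := by
      by_contra h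
      apply hl'
      rw [mem_filter, mem_Icc]
      exact ⟨⟨h1, by omega⟩, hl.1⟩
    rw [mw2_zero hq hκ h2]
    simp

lemma G_zero {q κ : ℝ} (hq : 1 < q) (hκ1 : κ ≤ 1 / 100) {G : ℝ → ℂ}
    (hG : ∀ v, 1 / 2 + 2 * κ < v → G v = 0) {k l : ℕ} (hl : 1 ≤ l) (hlq : (l : ℝ) ≤ q ^ κ)
    (hk : q ≤ k) : G ((Real.log k - Real.log l) / Real.log q) = 0 := by
  apply hG
  have hL : 0 < Real.log q := Real.log_pos hq
  rw [lt_div_iff₀ hL]
  have h1 : Real.log q ≤ Real.log k := Real.log_le_log (by linarith) hk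
  have h2 : Real.log l ≤ κ * Real.log q := by
    have h3 := Real.log_le_log (by exact_mod_cast hl : (0 : ℝ) < l) hlq
    rwa [Real.log_rpow (by linarith)] at h3
  nlinarith [mul_le_mul_of_nonneg_right hκ1 hL.le]

lemma bb_zero {q κ : ℝ} (hq : 1 < q) (hκ : 0 < κ) (hκ1 : κ ≤ 1 / 100) {G : ℝ → ℂ}
    (hG : ∀ v, 1 / 2 + 2 * κ < v → G v = 0) {k : ℕ} (hk : q ≤ k) : bb q κ G k = 0 := by
  unfold bb
  apply sum_eq_zero
  intro l hl
  have h1 : 1 ≤ l := Nat.pos_of_mem_divisors hl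
  by_cases h : (l : ℝ) ≤ q ^ κ
  · rw [G_zero hq hκ1 hG h1 h hk, mul_zero]
  · rw [mw2_zero hq hκ ((Nat.floor_lt (by positivity)).2 (not_le.1 h))]
    simp

/-- the product of the smooth sum and the mollifier -/
lemma prod_eq {q : ℕ} (hq : 2 ≤ q) (ψ : DirichletCharacter ℂ q) {κ : ℝ} (s : ℂ) (hκ : 0 < κ)
    (hκ1 : κ ≤ 1 / 100) {G : ℝ → ℂ} (hG : ∀ v, 1 / 2 + 2 * κ < v → G v = 0) :
    AS ψ G s * MP ψ κ s = ∑ k ∈ Icc 1 (q - 1), ψ (k : ZMod q) *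
      ((k : ℂ) ^ (-s) * bb q κ G k) := by
  classical
  have hq1 : (1 : ℝ) < q := by exact_mod_cast (by omega : 1 < q)
  set z : ℂ := -s with hz
  set H : ℕ → ℕ → ℂ := fun k l => ψ (k : ZMod q) * ((k : ℂ) ^ z *
    ((mw2 q κ l : ℂ) * G ((Real.log k - Real.log l) / Real.log q))) with hH
  have hF : ∀ n ∈ Icc 1 q, ∀ l ∈ Icc 1 ⌊(q : ℝ) ^ κ⌋₊,
      (G (Real.log n / Real.log q) * (ψ (n : ZMod q) * (n : ℂ) ^ z)) *
        ((mw2 q κ l : ℂ) * (ψ (l : ZMod q) * (l : ℂ) ^ z)) =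
      ∑ k ∈ Icc 1 (q - 1), if k = n * l then H k l else 0 := by
    intro n hn l hl
    rw [mem_Icc] at hn hl
    have hn0 : (0 : ℝ) < n := by exact_mod_cast hn.1
    have hl0 : (0 : ℝ) < l := by exact_mod_cast hl.1
    have hnl : 1 ≤ n * l := Nat.mul_pos hn.1 hl.1
    have hlog : Real.log ((n * l : ℕ) : ℝ) - Real.log l = Real.log n := by
      push_cast
      rw [Real.log_mul hn0.ne' hl0.ne']
      ring
    by_cases h : n * l ≤ q - 1
    · rw [sum_ite_eq' (Icc 1 (q - 1)) (n * l)]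
      rw [if_pos (mem_Icc.2 ⟨hnl, h⟩)]
      simp only [hH]
      rw [hlog]
      push_cast
      rw [map_mul, Complex.natCast_mul_natCast_cpow]
      ring
    · have h1 : (q : ℝ) ≤ ((n * l : ℕ) : ℝ) := by
        have : q ≤ n * l := by omega
        exact_mod_cast this
      have h2 : (l : ℝ) ≤ (q : ℝ) ^ κ := (Nat.le_floor_iff (by positivity)).1 hl.2
      have h3 := G_zero hq1 hκ1 hG hl.1 h2 h1
      rw [hlog] at h3
      rw [h3]
      symm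
      rw [zero_mul, zero_mul]
      apply sum_eq_zero
      intro k hk
      rw [mem_Icc] at hk
      rw [if_neg (by omega)]
  rw [MP_eq hq1 ψ hκ]
  unfold AS
  rw [sum_mul_sum]
  rw [sum_congr rfl fun n hn => sum_congr rfl fun l hl => hF n hn l hl]
  have hswap : ∑ n ∈ Icc 1 q, ∑ l ∈ Icc 1 ⌊(q : ℝ) ^ κ⌋₊, ∑ k ∈ Icc 1 (q - 1),
      (if k = n * l then H k l else 0) = ∑ k ∈ Icc 1 (q - 1), ∑ l ∈ Icc 1 ⌊(q : ℝ) ^ κ⌋₊,
        ∑ n ∈ Icc 1 q, (if k = n * l then H k l else 0) := by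
    rw [sum_comm]
    rw [sum_comm (s := Icc 1 (q - 1))]
    refine sum_congr rfl fun l _ => ?_
    rw [sum_comm]
  rw [hswap]
  refine sum_congr rfl fun k hk => ?_
  rw [mem_Icc] at hk
  rw [bb_eq hq1 hκ G hk.1, mul_sum, mul_sum]
  refine sum_congr rfl fun l hl => ?_
  rw [mem_Icc] at hl
  by_cases hlk : l ∣ k
  · rw [if_pos hlk]
    have hkl : k = k / l * l := (Nat.div_mul_cancel hlk).symm
    rw [sum_eq_single (k / l)]
    · rw [if_pos hkl]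
    · intro n _ hn
      rw [if_neg]
      intro h
      apply hn
      rw [h, Nat.mul_div_cancel _ hl.1]
    · intro h
      exfalso
      apply h
      rw [mem_Icc]
      refine ⟨Nat.div_pos (Nat.le_of_dvd hk.1 hlk) hl.1, ?_⟩
      exact (Nat.div_le_self _ _).trans (by omega)
  · rw [if_neg hlk, mul_zero, mul_zero]
    apply sum_eq_zero
    intro n _
    rw [if_neg]
    rintro rfl
    exact hlk (dvd_mul_left _ _)

lemma norm_natCast_cpow (s : ℂ) {k : ℕ} (hk : 1 ≤ k) :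
    ‖(k : ℂ) ^ (-s)‖ ^ 2 = 1 / k * Real.exp (-2 * (s.re - 1 / 2) * Real.log k) := by
  have hk0 : (0 : ℝ) < k := by exact_mod_cast hk
  rw [Complex.norm_natCast_cpow_of_pos hk]
  rw [← Real.rpow_natCast, ← Real.rpow_mul hk0.le, Complex.neg_re]
  have e : (1 : ℝ) / k = Real.exp (-Real.log k) := by
    rw [Real.exp_neg, Real.exp_log hk0, one_div]
  rw [e, ← Real.exp_add, Real.rpow_def_of_pos hk0]
  congr 1
  push_cast
  ring

lemma mw_abs {q κ : ℝ} (hq : 1 < q) (hκ : 0 < κ) {l : ℕ} (hl : 1 ≤ l) : |mw q κ l| ≤ 1 := by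
  unfold mw
  split_ifs with h
  · have hL : 0 < Real.log q := Real.log_pos hq
    have hl0 : (0 : ℝ) < l := by exact_mod_cast hl
    have h1 : 0 ≤ Real.log l := Real.log_nonneg (by exact_mod_cast hl)
    have h2 : Real.log l ≤ κ * Real.log q := by
      have h3 := Real.log_le_log hl0 h
      rwa [Real.log_rpow (by linarith)] at h3
    have h3 : 0 < κ * Real.log q := by positivity
    have h4 : Real.log l / (κ * Real.log q) ≤ 1 := (div_le_one h3).2 h2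
    have h5 : 0 ≤ Real.log l / (κ * Real.log q) := by positivity
    rw [abs_mul]
    have h6 : |(ArithmeticFunction.moebius l : ℝ)| ≤ 1 := by
      have := ArithmeticFunction.abs_moebius_le_one (n := l)
      exact_mod_cast this
    have h7 : |1 - Real.log l / (κ * Real.log q)| ≤ 1 := by
      rw [abs_le]
      constructor <;> linarith
    calc _ ≤ (1 : ℝ) * 1 := mul_le_mul h6 h7 (abs_nonneg _) zero_le_one
      _ = 1 := one_mul 1
  · simp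

lemma mw2_abs {q κ : ℝ} (hq : 1 < q) (hκ : 0 < κ) {l : ℕ} (hl : 1 ≤ l) : |mw2 q κ l| ≤ 3 := by
  unfold mw2
  have h1 := mw_abs hq hκ hl
  have h2 := mw_abs hq (half_pos hκ) hl
  rw [abs_le] at h1 h2 ⊢
  constructor <;> linarith [h1.1, h1.2, h2.1, h2.2]

/-- the off-diagonal terms -/
lemma off_eq {p ν m : ℕ} (χ : DirichletCharacter ℂ (p ^ ν)) {Q κ : ℝ} (hQ : 1 < Q) (hκ : 0 < κ)
    (s : ℂ) (G : ℝ → ℂ) (M h : ℕ) :
    ∑ n ∈ Icc 1 M, (χ ((n + p ^ m * h : ℕ) : ZMod (p ^ ν)) *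
        (((n + p ^ m * h : ℕ) : ℂ) ^ (-s) *
          bb Q κ G (n + p ^ m * h))) *
        (starRingEnd ℂ) (χ (n : ZMod (p ^ ν)) *
          ((n : ℂ) ^ (-s) * bb Q κ G n)) =
      ∑ l1 ∈ Icc 1 ⌊Q ^ κ⌋₊, ∑ l2 ∈ Icc 1 ⌊Q ^ κ⌋₊, ((mw2 Q κ l1 : ℂ) * (mw2 Q κ l2 : ℂ)) *
        ∑ n ∈ (Icc 1 M).filter (fun n => l2 ∣ n ∧ l1 ∣ n + p ^ m * h),
          FF χ ((p : ℤ) ^ m * (h : ℤ)) (n : ℤ) * (ws Q s G l1 (n + p ^ m * h) *
            (starRingEnd ℂ) (ws Q s G l2 n)) := by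
  classical
  set z : ℂ := -s with hz
  have hterm : ∀ n ∈ Icc 1 M, (χ ((n + p ^ m * h : ℕ) : ZMod (p ^ ν)) *
        (((n + p ^ m * h : ℕ) : ℂ) ^ z * bb Q κ G (n + p ^ m * h))) *
        (starRingEnd ℂ) (χ (n : ZMod (p ^ ν)) * ((n : ℂ) ^ z * bb Q κ G n)) =
      ∑ l1 ∈ Icc 1 ⌊Q ^ κ⌋₊, ∑ l2 ∈ Icc 1 ⌊Q ^ κ⌋₊, if l2 ∣ n ∧ l1 ∣ n + p ^ m * h then
        ((mw2 Q κ l1 : ℂ) * (mw2 Q κ l2 : ℂ)) *
          (FF χ ((p : ℤ) ^ m * (h : ℤ)) (n : ℤ) * (ws Q s G l1 (n + p ^ m * h) *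
            (starRingEnd ℂ) (ws Q s G l2 n))) else 0 := by
    intro n hn
    rw [mem_Icc] at hn
    have hFF : FF χ ((p : ℤ) ^ m * (h : ℤ)) (n : ℤ) = χ ((n + p ^ m * h : ℕ) : ZMod (p ^ ν)) *
        (starRingEnd ℂ) (χ (n : ZMod (p ^ ν))) := by
      unfold FF
      have e3 : ((n + p ^ m * h : ℕ) : ZMod (p ^ ν)) =
          (((n : ℤ) + (p : ℤ) ^ m * (h : ℤ) : ℤ) : ZMod (p ^ ν)) := by
        push_cast; ring
      have e4 : ((n : ℕ) : ZMod (p ^ ν)) = (((n : ℕ) : ℤ) : ZMod (p ^ ν)) := by push_cast; rfl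
      rw [e3, ← e4]
    rw [bb_eq hQ hκ G (by omega : 1 ≤ n + p ^ m * h), bb_eq hQ hκ G hn.1, map_mul, map_mul,
      map_sum]
    have e : ∀ (A B C D : ℂ) (S T : ℂ), (A * (B * S)) * (C * (D * T)) =
        (A * C * (B * D)) * (S * T) := by intros; ring
    rw [e, sum_mul_sum, mul_sum]
    refine sum_congr rfl fun l1 _ => ?_
    rw [mul_sum]
    refine sum_congr rfl fun l2 _ => ?_
    by_cases h1 : l1 ∣ n + p ^ m * h
    · by_cases h2 : l2 ∣ n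
      · rw [if_pos h1, if_pos h2, if_pos ⟨h2, h1⟩, hFF]
        unfold ws
        rw [map_mul, map_mul, Complex.conj_ofReal, ← hz]
        ring
      · have h5 : ¬ (l2 ∣ n ∧ l1 ∣ n + p ^ m * h) := fun h3 => h2 h3.1
        rw [if_neg h2, if_neg h5]
        simp
    · have h5 : ¬ (l2 ∣ n ∧ l1 ∣ n + p ^ m * h) := fun h3 => h1 h3.2
      rw [if_neg h1, if_neg h5]
      simp
  rw [sum_congr rfl hterm, sum_comm]
  refine sum_congr rfl fun l1 _ => ?_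
  rw [sum_comm]
  refine sum_congr rfl fun l2 _ => ?_
  rw [mul_sum, sum_filter]

/-- the factor `n^(-2α)` on the support of `bb` -/
lemma exp_bound {q κ Λ a : ℝ} (hq : 1 < q) {G : ℝ → ℂ}
    (hG : ∀ v, v < a → G v = 0) (hΛ : 0 < Λ) (s : ℂ)
    (hs : 1 / 2 - Λ / Real.log q ≤ s.re) {k : ℕ} (hk : 1 ≤ k) (hkq : (k : ℝ) ≤ q)
    (hb : bb q κ G k ≠ 0) :
    Real.exp (-2 * (s.re - 1 / 2) * Real.log k) ≤
      Real.exp (2 * Λ) * q ^ (-2 * (s.re - 1 / 2) * max a 0) := by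
  have hL : 0 < Real.log q := Real.log_pos hq
  have hk0 : (0 : ℝ) < k := by exact_mod_cast hk
  have hlk : 0 ≤ Real.log k := Real.log_natCast_nonneg k
  have hlkq : Real.log k ≤ Real.log q := Real.log_le_log hk0 hkq
  -- `log k ≥ L max(a, 0)`
  have hka : Real.log q * max a 0 ≤ Real.log k := by
    rcases le_total a 0 with ha | ha
    · rw [max_eq_right ha, mul_zero]; exact hlk
    · rw [max_eq_left ha]
      by_contra hcon
      apply hb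
      unfold bb
      apply sum_eq_zero
      intro l hl
      have h1 : 1 ≤ l := Nat.pos_of_mem_divisors hl
      rw [hG, mul_zero]
      rw [div_lt_iff₀ hL]
      have h2 : 0 ≤ Real.log l := Real.log_natCast_nonneg l
      linarith
  have hmax : 0 ≤ max a 0 := le_max_right _ _
  rw [Real.rpow_def_of_pos (by linarith), ← Real.exp_add]
  apply Real.exp_le_exp.2
  rcases le_total (1 / 2) s.re with h | h
  · have h3 : 0 ≤ s.re - 1 / 2 := by linarith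
    nlinarith [mul_le_mul_of_nonneg_left hka h3]
  · have h3 : 0 ≤ 1 / 2 - s.re := by linarith
    have h4 : (1 / 2 - s.re) * Real.log q ≤ Λ := by
      have h5 : 1 / 2 - s.re ≤ Λ / Real.log q := by linarith
      rwa [le_div_iff₀ hL] at h5
    have h6 : (1 / 2 - s.re) * Real.log k ≤ Λ :=
      (mul_le_mul_of_nonneg_left hlkq h3).trans h4
    have h7 : 0 ≤ Real.log q * ((1 / 2 - s.re) * max a 0) := by positivity
    nlinarith

theorem msr (h1 : S_OFS) (h2 : S_DIAG) : S_MSR := by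
  classical
  intro δ hδ
  obtain ⟨κ₀, η, hκ₀, hκ₀1, hη, hκη, hofl⟩ := h1 δ hδ
  obtain ⟨CD, hCD, hdiag⟩ := h2
  refine ⟨κ₀, η - 3 * κ₀, hκ₀, hκ₀1, by linarith, by linarith, ?_⟩
  intro κ hκ hκ1 T Λ hΛ
  have hκκ₀ : κ ≤ κ₀ := hκ1
  have hκ100 : κ ≤ 1 / 100 := hκ1.trans hκ₀1
  refine ⟨12 * CD * Real.exp (2 * Λ) / κ + 2, by positivity, ?_⟩
  intro p hpF hp7
  have hp : p.Prime := hpF.out
  obtain ⟨C, ν₁, hC, hofl⟩ := hofl κ hκ hκκ₀ T Λ hΛ p hp hp7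
  have hp0 : (0 : ℝ) < p := by exact_mod_cast hp.pos
  have hp1 : (1 : ℝ) ≤ p := by exact_mod_cast hp.one_le
  have hplt : (1 : ℝ) < p := by exact_mod_cast hp.one_lt
  have hlp : 0 < Real.log p := Real.log_pos hplt
  obtain ⟨ν₂, hν₂⟩ : ∃ ν₂ : ℕ, ∀ ν ≥ ν₂, 9 * C ≤ ((p : ℝ) ^ ν) ^ κ₀ ∧
      1 ≤ κ / 2 * Real.log ((p : ℝ) ^ ν) := by
    refine ⟨⌈9 * C / (κ₀ * Real.log p)⌉₊ + ⌈1 / (κ / 2 * Real.log p)⌉₊, fun ν hν => ?_⟩
    have e1 : 9 * C / (κ₀ * Real.log p) ≤ ν := by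
      refine (Nat.le_ceil _).trans ?_
      exact_mod_cast (by omega : ⌈9 * C / (κ₀ * Real.log p)⌉₊ ≤ ν)
    have e2 : 1 / (κ / 2 * Real.log p) ≤ ν := by
      refine (Nat.le_ceil _).trans ?_
      exact_mod_cast (by omega : ⌈1 / (κ / 2 * Real.log p)⌉₊ ≤ ν)
    constructor
    · rw [div_le_iff₀ (by positivity)] at e1
      rw [Real.rpow_def_of_pos (by positivity), Real.log_pow]
      have := Real.add_one_le_exp (ν * Real.log p * κ₀)
      linarith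
    · rw [div_le_iff₀ (by positivity)] at e2
      rw [Real.log_pow]
      linarith
  refine ⟨max ν₁ (max ν₂ 1), ?_⟩
  intro ν m hmν hν hm χ hχ B G hG a ha hsupp s hReg
  have hν1 : ν₁ ≤ ν := (le_max_left _ _).trans hν
  have hν2 : ν₂ ≤ ν := ((le_max_left _ _).trans (le_max_right _ _)).trans hν
  have hν3 : 1 ≤ ν := ((le_max_right _ _).trans (le_max_right _ _)).trans hν
  obtain ⟨hCQ, hκL⟩ := hν₂ ν hν2
  have hm1 : 1 ≤ m := by
    by_contra hcon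
    have h0 : m = 0 := by omega
    rw [h0] at hm
    have : (0 : ℝ) < (19 / 58 + δ) * ν := by
      have : (0 : ℝ) < ν := by exact_mod_cast hν3
      positivity
    simp at hm
    linarith
  have hcast : ((p ^ ν : ℕ) : ℝ) = (p : ℝ) ^ ν := by push_cast; rfl
  set Q : ℝ := (p : ℝ) ^ ν with hQ
  have hQ7 : (7 : ℝ) ≤ Q := by
    have h7 : (7 : ℝ) ≤ p := by exact_mod_cast hp7
    calc (7 : ℝ) ≤ p := h7
      _ = (p : ℝ) ^ 1 := (pow_one _).symm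
      _ ≤ (p : ℝ) ^ ν := pow_le_pow_right₀ hp1 hν3
  have hQ1 : 1 < Q := by linarith
  have hQ0 : 0 < Q := by linarith
  have hLQ : 0 < Real.log Q := Real.log_pos hQ1
  have hq2 : 2 ≤ p ^ ν := by
    have : (2 : ℝ) ≤ ((p ^ ν : ℕ) : ℝ) := by rw [hcast]; linarith
    exact_mod_cast this
  have : NeZero p := ⟨hp.ne_zero⟩
  have hGz : ∀ v, 1 / 2 + 2 * κ < v → G v = 0 := by
    intro v hv
    apply hsupp
    intro h
    have := h.2
    linarith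
  have hGa : ∀ v, v < a → G v = 0 := by
    intro v hv
    apply hsupp
    intro h
    have := h.1
    linarith
  set M : ℕ := p ^ ν - 1 with hM
  have hMlt : M < p ^ ν := by omega
  have hM1 : M + 1 = p ^ ν := by omega
  set f : ℕ → ℂ := fun k => χ (k : ZMod (p ^ ν)) *
    ((k : ℂ) ^ (-s) * bb Q κ G k) with hf
  have hf0 : ∀ n, M < n → f n = 0 := by
    intro n hn
    have h3 : Q ≤ n := by
      rw [← hcast]
      exact_mod_cast (by omega : p ^ ν ≤ n)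
    simp only [hf]
    rw [bb_zero hQ1 hκ hκ100 hGz h3]
    ring
  have hdvd : p ^ m ∣ p ^ ν := pow_dvd_pow p hmν.le
  have hunit : ∀ n : ℕ, IsUnit (n : ZMod (p ^ m)) ↔ IsUnit (n : ZMod (p ^ ν)) := by
    intro n
    rw [ZMod.isUnit_iff_coprime, ZMod.isUnit_iff_coprime, Nat.coprime_pow_right_iff (by omega),
      Nat.coprime_pow_right_iff (by omega)]
  have hSS : ∀ θ : DirichletCharacter ℂ (p ^ m),
      AS (χ * DirichletCharacter.changeLevel hdvd θ) G s *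
        MP (χ * DirichletCharacter.changeLevel hdvd θ) κ s =
      ∑ n ∈ Icc 1 M, θ (n : ZMod (p ^ m)) * f n := by
    intro θ
    rw [prod_eq hq2 _ s hκ hκ100 hGz]
    refine sum_congr rfl fun n _ => ?_
    rw [hcast, MulChar.mul_apply]
    by_cases hn : IsUnit (n : ZMod (p ^ ν))
    · obtain ⟨u, hu⟩ := hn
      have : (DirichletCharacter.changeLevel hdvd θ) (n : ZMod (p ^ ν)) =
          θ (n : ZMod (p ^ m)) := by
        rw [← hu, DirichletCharacter.changeLevel_eq_cast_of_dvd, hu, ZMod.cast_natCast hdvd]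
      rw [this]
      simp only [hf]
      ring
    · have h1 : χ (n : ZMod (p ^ ν)) = 0 := MulChar.map_nonunit _ hn
      simp only [hf]
      rw [h1]
      ring
  simp_rw [hSS]
  have horth := orth (d := p ^ m) (Icc 1 M) f (fun n _ hn => by
    simp only [hf]
    rw [MulChar.map_nonunit χ (fun h1 => hn ((hunit n).2 h1)), zero_mul])
  refine horth.trans ?_
  have hcong := cong_sum (d := p ^ m) (M := M) (pow_pos hp.pos m) f hf0
  -- the diagonal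
  obtain ⟨W, hW⟩ : ∃ W : ℝ, W = Q ^ (-2 * (s.re - 1 / 2) * max a 0) := ⟨_, rfl⟩
  have hW0 : 0 < W := by rw [hW]; exact Real.rpow_pos_of_pos hQ0 _
  rw [← hW]
  have hMQ1 : (M : ℝ) ≤ Q := by
    rw [← hcast]
    exact_mod_cast hMlt.le
  have hMQ : (M : ℝ) ≤ Q ^ 2 := by nlinarith
  have hκ2L : 1 ≤ κ * Real.log Q := by
    have : κ / 2 * Real.log Q ≤ κ * Real.log Q :=
      mul_le_mul_of_nonneg_right (by linarith) hLQ.le
    linarith
  have hd1 := hdiag κ hκ (by linarith) B G hG Q hκ2L M hMQ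
  have hd2 := hdiag (κ / 2) (by linarith) (by linarith) B G hG Q hκL M hMQ
  have hD : ∑ n ∈ Icc 1 M, ‖f n‖ ^ 2 ≤ 12 * CD * Real.exp (2 * Λ) / κ * B ^ 2 * W := by
    have hbnd : ∀ n ∈ Icc 1 M, ‖f n‖ ^ 2 ≤ Real.exp (2 * Λ) * W *
        (8 * (‖b1 Q κ G n‖ ^ 2 / n) + 2 * (‖b1 Q (κ / 2) G n‖ ^ 2 / n)) := by
      intro n hn
      rw [mem_Icc] at hn
      have hn0 : (0 : ℝ) < n := by exact_mod_cast hn.1
      by_cases hbz : bb Q κ G n = 0
      · simp only [hf]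
        rw [hbz, mul_zero, mul_zero, norm_zero, zero_pow two_ne_zero]
        positivity
      · have hnQ : (n : ℝ) ≤ Q := by
          refine le_trans ?_ hMQ1
          exact_mod_cast hn.2
        have h6 := exp_bound hQ1 hGa hΛ s hReg.1 hn.1 hnQ hbz
        rw [← hW] at h6
        simp only [hf]
        rw [norm_mul, norm_mul, mul_pow, mul_pow, norm_natCast_cpow s hn.1]
        have h3 : ‖χ (n : ZMod (p ^ ν))‖ ^ 2 ≤ 1 := by
          have := χ.norm_le_one (n : ZMod (p ^ ν))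
          exact pow_le_one₀ (norm_nonneg _) this
        have h7 := norm_bb_sq Q κ G n
        have h8 : 1 / (n : ℝ) * Real.exp (-2 * (s.re - 1 / 2) * Real.log n) *
            ‖bb Q κ G n‖ ^ 2 ≤ 1 / (n : ℝ) * (Real.exp (2 * Λ) * W) *
            (8 * ‖b1 Q κ G n‖ ^ 2 + 2 * ‖b1 Q (κ / 2) G n‖ ^ 2) := by
          apply mul_le_mul _ h7 (by positivity) (by positivity)
          exact mul_le_mul_of_nonneg_left h6 (by positivity)
        calc _ ≤ 1 * (1 / (n : ℝ) * Real.exp (-2 * (s.re - 1 / 2) * Real.log n) *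
            ‖bb Q κ G n‖ ^ 2) := mul_le_mul_of_nonneg_right h3 (by positivity)
          _ ≤ 1 / (n : ℝ) * (Real.exp (2 * Λ) * W) *
            (8 * ‖b1 Q κ G n‖ ^ 2 + 2 * ‖b1 Q (κ / 2) G n‖ ^ 2) := by rw [one_mul]; exact h8
          _ = _ := by ring
    refine (sum_le_sum hbnd).trans ?_
    rw [← mul_sum, sum_add_distrib, ← mul_sum, ← mul_sum]
    have hd1' : ∑ n ∈ Icc 1 M, ‖b1 Q κ G n‖ ^ 2 / n ≤ CD * B ^ 2 / κ := hd1
    have hd2' : ∑ n ∈ Icc 1 M, ‖b1 Q (κ / 2) G n‖ ^ 2 / n ≤ CD * B ^ 2 / (κ / 2) := hd2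
    calc _ ≤ Real.exp (2 * Λ) * W * (8 * (CD * B ^ 2 / κ) + 2 * (CD * B ^ 2 / (κ / 2))) := by
          apply mul_le_mul_of_nonneg_left _ (by positivity)
          linarith
      _ = _ := by
          field_simp
          ring
  -- the off-diagonal terms
  set Y : ℕ := ⌊Q ^ κ⌋₊ with hY
  have hYQ : (Y : ℝ) ≤ Q ^ κ := Nat.floor_le (by positivity)
  have hoff1 : ∀ l1 ∈ Icc 1 Y, ∀ l2 ∈ Icc 1 Y,
      ∑ h ∈ Icc 1 (M / p ^ m), ‖((mw2 Q κ l1 : ℂ) * (mw2 Q κ l2 : ℂ)) *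
        ∑ n ∈ (Icc 1 M).filter (fun n => l2 ∣ n ∧ l1 ∣ n + p ^ m * h),
          FF χ ((p : ℤ) ^ m * (h : ℤ)) (n : ℤ) * (ws Q s G l1 (n + p ^ m * h) *
            (starRingEnd ℂ) (ws Q s G l2 n))‖ ≤ 9 * (C * B ^ 2 * Q ^ (-η)) := by
    intro l1 hl1 l2 hl2
    rw [mem_Icc] at hl1 hl2
    have hrhs : 0 ≤ 9 * (C * B ^ 2 * Q ^ (-η)) := by positivity
    have hl1Q : (l1 : ℝ) ≤ Q ^ κ := (Nat.le_floor_iff (by positivity)).1 hl1.2
    have hl2Q : (l2 : ℝ) ≤ Q ^ κ := (Nat.le_floor_iff (by positivity)).1 hl2.2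
    have hnu : ∀ k : ℕ, p ∣ k → χ (k : ZMod (p ^ ν)) = 0 := by
      intro k hk
      apply MulChar.map_nonunit
      rw [ZMod.isUnit_iff_coprime, Nat.coprime_pow_right_iff (by omega)]
      intro hco
      have h3 : p ∣ Nat.gcd k p := Nat.dvd_gcd hk dvd_rfl
      rw [Nat.Coprime] at hco
      rw [hco] at h3
      exact hp.one_lt.ne' (Nat.dvd_one.1 h3)
    by_cases hpl : p ∣ l1 ∨ p ∣ l2
    · refine le_trans (le_of_eq ?_) hrhs
      apply sum_eq_zero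
      intro h _
      rw [norm_eq_zero]
      rw [sum_eq_zero, mul_zero]
      intro n hn
      rw [mem_filter] at hn
      have hFF : FF χ ((p : ℤ) ^ m * (h : ℤ)) (n : ℤ) = 0 := by
        unfold FF
        have e3 : (((n : ℤ) + (p : ℤ) ^ m * (h : ℤ) : ℤ) : ZMod (p ^ ν)) =
            ((n + p ^ m * h : ℕ) : ZMod (p ^ ν)) := by
          push_cast; ring
        have e4 : (((n : ℕ) : ℤ) : ZMod (p ^ ν)) = ((n : ℕ) : ZMod (p ^ ν)) := by push_cast; rfl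
        rw [e3, e4]
        rcases hpl with h3 | h3
        · rw [hnu _ (h3.trans hn.2.2), zero_mul]
        · rw [hnu _ (h3.trans hn.2.1), map_zero, mul_zero]
      rw [hFF, zero_mul]
    · push Not at hpl
      have hofl' := hofl ν m hν1 hm1 hmν hm χ hχ B G hG a ha hsupp s hReg
        l1 l2 hl1.1 hl2.1 hl1Q hl2Q hpl.1 hpl.2 M hM1
      refine le_trans (sum_le_sum fun h _ => ?_) ((mul_sum _ _ _).symm.le.trans
        (mul_le_mul_of_nonneg_left hofl' (by norm_num : (0 : ℝ) ≤ 9)))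
      rw [norm_mul, norm_mul, Complex.norm_real, Complex.norm_real, Real.norm_eq_abs,
        Real.norm_eq_abs]
      have h3 := mw2_abs hQ1 hκ hl1.1
      have h4 := mw2_abs hQ1 hκ hl2.1
      have h5 : |mw2 Q κ l1| * |mw2 Q κ l2| ≤ 9 := by
        calc _ ≤ (3 : ℝ) * 3 := mul_le_mul h3 h4 (abs_nonneg _) (by norm_num)
          _ = 9 := by norm_num
      exact mul_le_mul_of_nonneg_right h5 (norm_nonneg _)
  have hoff : ∑ h ∈ Icc 1 (M / p ^ m), ‖∑ n ∈ Icc 1 M, f (n + p ^ m * h) *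
      (starRingEnd ℂ) (f n)‖ ≤ B ^ 2 * Q ^ (-(η - 3 * κ₀)) := by
    calc ∑ h ∈ Icc 1 (M / p ^ m), ‖∑ n ∈ Icc 1 M, f (n + p ^ m * h) * (starRingEnd ℂ) (f n)‖
        ≤ ∑ h ∈ Icc 1 (M / p ^ m), ∑ l1 ∈ Icc 1 Y, ∑ l2 ∈ Icc 1 Y,
          ‖((mw2 Q κ l1 : ℂ) * (mw2 Q κ l2 : ℂ)) *
          ∑ n ∈ (Icc 1 M).filter (fun n => l2 ∣ n ∧ l1 ∣ n + p ^ m * h),
            FF χ ((p : ℤ) ^ m * (h : ℤ)) (n : ℤ) * (ws Q s G l1 (n + p ^ m * h) *
              (starRingEnd ℂ) (ws Q s G l2 n))‖ := by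
          refine sum_le_sum fun h _ => ?_
          have e := off_eq (m := m) χ hQ1 hκ s G M h
          simp only [hf]
          rw [e]
          exact (norm_sum_le _ _).trans (sum_le_sum fun l1 _ => norm_sum_le _ _)
      _ = ∑ l1 ∈ Icc 1 Y, ∑ l2 ∈ Icc 1 Y, ∑ h ∈ Icc 1 (M / p ^ m),
          ‖((mw2 Q κ l1 : ℂ) * (mw2 Q κ l2 : ℂ)) *
          ∑ n ∈ (Icc 1 M).filter (fun n => l2 ∣ n ∧ l1 ∣ n + p ^ m * h),
            FF χ ((p : ℤ) ^ m * (h : ℤ)) (n : ℤ) * (ws Q s G l1 (n + p ^ m * h) *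
              (starRingEnd ℂ) (ws Q s G l2 n))‖ := by
          rw [sum_comm]
          refine sum_congr rfl fun l1 _ => ?_
          rw [sum_comm]
      _ ≤ ∑ l1 ∈ Icc 1 Y, ∑ l2 ∈ Icc 1 Y, 9 * (C * B ^ 2 * Q ^ (-η)) :=
          sum_le_sum fun l1 h3 => sum_le_sum fun l2 h4 => hoff1 l1 h3 l2 h4
      _ = (Y : ℝ) ^ 2 * (9 * (C * B ^ 2 * Q ^ (-η))) := by
          rw [sum_const, sum_const, Nat.card_Icc, Nat.add_sub_cancel, nsmul_eq_mul, nsmul_eq_mul]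
          ring
      _ ≤ (Q ^ κ) ^ 2 * (9 * (C * B ^ 2 * Q ^ (-η))) := by gcongr
      _ = (9 * C * Q ^ (2 * κ - η)) * B ^ 2 := by
          rw [sub_eq_add_neg, Real.rpow_add hQ0, two_mul, Real.rpow_add hQ0]
          ring
      _ ≤ Q ^ (-(η - 3 * κ₀)) * B ^ 2 := by
          gcongr
          calc 9 * C * Q ^ (2 * κ - η) ≤ Q ^ κ₀ * Q ^ (2 * κ - η) := by gcongr
            _ = Q ^ (κ₀ + (2 * κ - η)) := (Real.rpow_add hQ0 _ _).symm
            _ ≤ Q ^ (-(η - 3 * κ₀)) := by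
                apply Real.rpow_le_rpow_of_exponent_le hQ1.le
                linarith
      _ = _ := by ring
  have hpm : ((p ^ m : ℕ) : ℝ) = (p : ℝ) ^ m := by push_cast; rfl
  rw [hpm]
  have hE0 : 0 < Q ^ (-(η - 3 * κ₀)) := Real.rpow_pos_of_pos hQ0 _
  have hK0 : 0 ≤ 12 * CD * Real.exp (2 * Λ) / κ := by positivity
  calc (p : ℝ) ^ m * _ ≤ (p : ℝ) ^ m * (12 * CD * Real.exp (2 * Λ) / κ * B ^ 2 * W +
        2 * (B ^ 2 * Q ^ (-(η - 3 * κ₀)))) := by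
        refine mul_le_mul_of_nonneg_left (hcong.trans ?_) (by positivity)
        exact add_le_add hD (mul_le_mul_of_nonneg_left hoff (by norm_num))
    _ ≤ (p : ℝ) ^ m * ((12 * CD * Real.exp (2 * Λ) / κ + 2) * B ^ 2 *
        (W + Q ^ (-(η - 3 * κ₀)))) := by
        apply mul_le_mul_of_nonneg_left _ (by positivity)
        have e1 : 0 ≤ 12 * CD * Real.exp (2 * Λ) / κ * B ^ 2 * Q ^ (-(η - 3 * κ₀)) := by
          positivity
        have e2 : 0 ≤ 2 * B ^ 2 * W := by positivity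
        nlinarith
    _ = _ := by ring

end Pool.Agent.Y764.R11
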